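import Mathlib
import Pool.Agent.H690R2.NS.Main

/-!
# The continuous theory of a II₁ factor is not simple

All definitions are in `Pool/Agent/H690R2/NS/Defs.lean` (terms, formulas, elementary embeddings,
indiscernible sequences, dividing, simplicity) and in `Pool/Agent/Helper278/Defs.lean`,
`Pool/Agent/Helper278/DefsG.lean` (von Neumann algebras with a trace, II₁ factors).

Sketch of the proof. In a II₁ factor, hence in its tracial ultrapower `P` (a model of the same
theory, by the theorem of Łoś), there are a family `p_α`, `q_α` (`α` in the Cantor space), `r_i`
(`i ≥ 1`) of commuting independent projections of trace `1/2` and a unitary `u` with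
`u p_α = q_α u` for all `α`. Let `B` be the set of all `p_α`, `q_α`. A separable subset `A` of `B` is
countable, so that it misses some `q_α`. Finite tuples of distinct projections of the family are
unitarily equivalent, so that the sequence obtained from the enumeration of `B` on replacing `q_α`
by `q_α, r_1, r_2, …` is `A`-indiscernible. The type of `u` over `B` contains `x p_α = q_α x` and
`x x* = 1`; with the first two members of the sequence this gives `q_α = x p_α x* = r_1`, which is
false. So the type of `u` over `B` divides over every separable subset of `B`.
-/

namespace Pool.Agent.Results.MP_baa3fb_lc.NotSimple

open Pool.Agent.Helper278 Pool.Agent.H690R2.NS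

/-- For every II₁ factor `R` (in particular for the hyperfinite one) with its trace, the complete
continuous theory `Th(R)` is not simple. -/
theorem result (R : TVNA) (hR : IsIIOneFactor R.N R.τ) : ¬ IsSimple R.theory :=
  not_simple R hR

end Pool.Agent.Results.MP_baa3fb_lc.NotSimple
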